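import Pool.Agent.Run7.helper62.BE_SUM

/-!
# Piece `PEN` of the project on stability conditions on bielliptic surfaces: the pencil lemma
-/

set_option autoImplicit false
set_option linter.unusedSectionVars false
set_option linter.unusedVariables false

open CategoryTheory CategoryTheory.Limits Pretriangulated Triangulated Complex ZeroObject
open Pool.Agent.Helper445_GMF

namespace Run7.h354.BE

universe v u

namespace Pen

section cones

variable {C : Type u} [Category.{v} C] [Preadditive C] [HasZeroObject C]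
  [HasShift C ℤ] [∀ n : ℤ, (shiftFunctor C n).Additive] [Pretriangulated C] [IsTriangulated C]
  (σ : PreStab C) (s : ℝ)

/-- the value of `H s` on the cone of a morphism -/
noncomputable def Hc {X Y : C} (f : X ⟶ Y) : ℝ := σ.H s (distinguished_cocone_triangle f).choose

theorem Hc_eq {X Y K : C} {f : X ⟶ Y} {g : Y ⟶ K} {h : K ⟶ X⟦(1 : ℤ)⟧}
    (hT : Triangle.mk f g h ∈ distTriang C) : Hc σ s f = σ.H s K := by
  obtain ⟨g', h', hT'⟩ := (distinguished_cocone_triangle f).choose_spec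
  have e := isoTriangleOfIso₁₂ _ _ hT' hT (Iso.refl X) (Iso.refl Y)
    (show f ≫ 𝟙 Y = 𝟙 X ≫ f by rw [Category.comp_id, Category.id_comp])
  exact σ.H_iso s (Triangle.π₃.mapIso e)

theorem Hc_iso {X Y X' Y' : C} (f : X ⟶ Y) (f' : X' ⟶ Y') (e₁ : X ≅ X') (e₂ : Y ≅ Y')
    (w : f ≫ e₂.hom = e₁.hom ≫ f') : Hc σ s f = Hc σ s f' := by
  obtain ⟨g, h, hT⟩ := (distinguished_cocone_triangle f).choose_spec
  obtain ⟨g', h', hT'⟩ := (distinguished_cocone_triangle f').choose_spec
  have e := isoTriangleOfIso₁₂ _ _ hT hT' e₁ e₂ w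
  exact σ.H_iso s (Triangle.π₃.mapIso e)

theorem Hc_comp {X Y Z : C} (f : X ⟶ Y) (g : Y ⟶ Z) : Hc σ s (f ≫ g) ≤ Hc σ s f + Hc σ s g := by
  obtain ⟨g1, h1, hT1⟩ := (distinguished_cocone_triangle f).choose_spec
  obtain ⟨g2, h2, hT2⟩ := (distinguished_cocone_triangle g).choose_spec
  obtain ⟨g3, h3, hT3⟩ := (distinguished_cocone_triangle (f ≫ g)).choose_spec
  have o := someOctahedron rfl hT1 hT2 hT3
  exact σ.H_sub _ o.mem s

theorem Hc_of_isZero {X Y : C} (f : X ⟶ Y) (h : IsZero X) : Hc σ s f = σ.H s Y := by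
  have hf : Triangle.mk f (𝟙 Y) (0 : Y ⟶ X⟦(1 : ℤ)⟧) ∈ distTriang C := by
    have e : Triangle.mk f (𝟙 Y) (0 : Y ⟶ X⟦(1 : ℤ)⟧) ≅ Triangle.mk (0 : 0 ⟶ Y) (𝟙 Y) 0 := by
      refine Triangle.isoMk _ _ (h.iso (isZero_zero C)) (Iso.refl _) (Iso.refl _) ?_ ?_ ?_
      · exact h.eq_of_src _ _
      · show 𝟙 Y ≫ 𝟙 Y = 𝟙 Y ≫ 𝟙 Y; rfl
      · exact ((Functor.map_isZero _ (isZero_zero C))).eq_of_tgt _ _
    exact isomorphic_distinguished _ (contractible_distinguished₁ Y) _ e
  exact Hc_eq σ s hf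

theorem Hc_isIso {X Y : C} (f : X ⟶ Y) [IsIso f] : Hc σ s f = 0 := by
  have hf : Triangle.mk f (0 : Y ⟶ 0) (0 : (0 : C) ⟶ X⟦(1 : ℤ)⟧) ∈ distTriang C :=
    (Triangle.distinguished_iff_of_isZero₃ _ (isZero_zero C)).2 (show IsIso f from inferInstance)
  rw [Hc_eq σ s hf]
  unfold PreStab.H
  rw [σ.F_zero s (isZero_zero C), σ.F_zero _ (isZero_zero C), add_zero]

theorem H_biprod (X Y : C) : σ.H s (X ⊞ Y) = σ.H s X + σ.H s Y :=
  σ.H_split _ (binaryBiproductTriangle_distinguished X Y) rfl s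

theorem prodIso_nat {A B : Bool → C} (φ : ∀ b, A b ⟶ B b) :
    Limits.Pi.map φ ≫ (PreStab.prodIso B).hom =
      (PreStab.prodIso A).hom ≫ biprod.map (φ false) (φ true) := by
  apply biprod.hom_ext
  · simp [PreStab.prodIso]
  · simp [PreStab.prodIso]

theorem Hc_biprod_map {X Y X' Y' : C} (f : X ⟶ Y) (f' : X' ⟶ Y') :
    Hc σ s (biprod.map f f') = Hc σ s f + Hc σ s f' := by
  obtain ⟨g, h, hT⟩ := (distinguished_cocone_triangle f).choose_spec
  obtain ⟨g', h', hT'⟩ := (distinguished_cocone_triangle f').choose_spec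
  let A : Bool → C := fun b => Bool.rec X X' b
  let B : Bool → C := fun b => Bool.rec Y Y' b
  let T : Bool → Triangle C := fun b => Bool.rec (Triangle.mk f g h) (Triangle.mk f' g' h') b
  have hTT : ∀ b, T b ∈ distTriang C := by
    rintro (_ | _)
    · exact hT
    · exact hT'
  have hp := productTriangle_distinguished T hTT
  have h1 : Hc σ s (productTriangle T).mor₁ = σ.H s (productTriangle T).obj₃ :=
    Hc_eq σ s (f := (productTriangle T).mor₁) (g := (productTriangle T).mor₂)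
      (h := (productTriangle T).mor₃) hp
  have h2 : σ.H s (productTriangle T).obj₃ = σ.H s (T false).obj₃ + σ.H s (T true).obj₃ := by
    rw [← H_biprod]
    exact σ.H_iso s (PreStab.prodIso (fun b => (T b).obj₃))
  have h3 : Hc σ s (productTriangle T).mor₁ = Hc σ s (biprod.map f f') := by
    exact Hc_iso σ s _ _ (PreStab.prodIso (fun b => (T b).obj₁))
      (PreStab.prodIso (fun b => (T b).obj₂)) (prodIso_nat (fun b => (T b).mor₁))
  rw [← h3, h1, h2]
  rfl

end cones

section matrices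

variable {C : Type u} [Category.{v} C] [Preadditive C] [Linear ℂ C] [HasZeroObject C]
  [HasShift C ℤ] [∀ n : ℤ, (shiftFunctor C n).Additive] [Pretriangulated C]

/-- the sum of `n` copies of `X` -/
noncomputable abbrev pw (n : ℕ) (X : C) : C := ⨁ (fun _ : Fin n => X)

/-- the components of a morphism -/
noncomputable def cc {m n : ℕ} {X Y : C} (f : pw m X ⟶ pw n Y) (i : Fin m) (j : Fin n) : X ⟶ Y :=
  biproduct.ι (fun _ : Fin m => X) i ≫ f ≫ biproduct.π (fun _ : Fin n => Y) j

theorem cc_ext {m n : ℕ} {X Y : C} {f g : pw m X ⟶ pw n Y} (h : ∀ i j, cc f i j = cc g i j) :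
    f = g := by
  apply biproduct.hom_ext'
  intro i
  apply biproduct.hom_ext
  intro j
  rw [Category.assoc, Category.assoc]
  exact h i j

theorem cc_comp {m n k : ℕ} {X Y Z : C} (f : pw m X ⟶ pw n Y) (g : pw n Y ⟶ pw k Z)
    (i : Fin m) (j : Fin k) : cc (f ≫ g) i j = ∑ l, cc f i l ≫ cc g l j := by
  unfold cc
  have h : f ≫ g = f ≫ (∑ l, biproduct.π (fun _ : Fin n => Y) l ≫
      biproduct.ι (fun _ : Fin n => Y) l) ≫ g := by
    rw [biproduct.total, Category.id_comp]
  rw [h]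
  simp only [Preadditive.sum_comp, Preadditive.comp_sum, Category.assoc]

/-- the morphism with given components -/
noncomputable def mk {m n : ℕ} {X Y : C} (c : Fin m → Fin n → (X ⟶ Y)) : pw m X ⟶ pw n Y :=
  biproduct.matrix c

theorem cc_mk {m n : ℕ} {X Y : C} (c : Fin m → Fin n → (X ⟶ Y)) (i : Fin m) (j : Fin n) :
    cc (mk c) i j = c i j := by
  unfold cc mk
  rw [biproduct.matrix_π, biproduct.ι_desc]

theorem cc_id {n : ℕ} {X : C} (i j : Fin n) : cc (𝟙 (pw n X)) i j = if i = j then 𝟙 X else 0 := by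
  unfold cc
  rw [Category.id_comp]
  by_cases h : i = j
  · subst h
    rw [if_pos rfl, biproduct.ι_π_self]
  · rw [if_neg h, biproduct.ι_π_ne _ h]

/-- the first summand split off -/
noncomputable def consIso (n : ℕ) (X : C) : pw (n + 1) X ≅ X ⊞ pw n X where
  hom := biprod.lift (biproduct.π (fun _ : Fin (n + 1) => X) 0)
    (biproduct.lift fun j : Fin n => biproduct.π (fun _ : Fin (n + 1) => X) j.succ)
  inv := biprod.desc (biproduct.ι (fun _ : Fin (n + 1) => X) 0)
    (biproduct.desc fun j : Fin n => biproduct.ι (fun _ : Fin (n + 1) => X) j.succ)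
  hom_inv_id := by
    rw [biprod.lift_desc, biproduct.lift_desc]
    have h := biproduct.total (f := fun _ : Fin (n + 1) => X)
    rw [Fin.sum_univ_succ] at h
    exact h
  inv_hom_id := by
    apply biprod.hom_ext'
    · rw [biprod.inl_desc_assoc, Category.comp_id]
      apply biprod.hom_ext
      · rw [Category.assoc, biprod.lift_fst, biprod.inl_fst, biproduct.ι_π_self]
      · rw [Category.assoc, biprod.lift_snd, biprod.inl_snd]
        apply biproduct.hom_ext
        intro j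
        rw [Category.assoc, biproduct.lift_π, zero_comp,
          biproduct.ι_π_ne _ (Fin.succ_ne_zero j).symm]
    · rw [biprod.inr_desc_assoc, Category.comp_id]
      apply biproduct.hom_ext'
      intro i
      rw [biproduct.ι_desc_assoc]
      apply biprod.hom_ext
      · rw [Category.assoc, biprod.lift_fst, Category.assoc, biprod.inr_fst, comp_zero,
          biproduct.ι_π_ne _ (Fin.succ_ne_zero i)]
      · rw [Category.assoc, biprod.lift_snd, Category.assoc, biprod.inr_snd, Category.comp_id]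
        apply biproduct.hom_ext
        intro j
        rw [Category.assoc, biproduct.lift_π]
        by_cases h : i = j
        · subst h
          rw [biproduct.ι_π_self, biproduct.ι_π_self]
        · rw [biproduct.ι_π_ne _ (fun h' => h (Fin.succ_injective _ h')), biproduct.ι_π_ne _ h]

theorem consIso_fst (n : ℕ) (X : C) :
    (consIso n X).hom ≫ biprod.fst = biproduct.π (fun _ : Fin (n + 1) => X) 0 := by
  unfold consIso; rw [biprod.lift_fst]

theorem consIso_snd (n : ℕ) (X : C) (j : Fin n) :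
    (consIso n X).hom ≫ biprod.snd ≫ biproduct.π (fun _ : Fin n => X) j =
      biproduct.π (fun _ : Fin (n + 1) => X) j.succ := by
  unfold consIso; rw [biprod.lift_snd_assoc, biproduct.lift_π]

theorem ι_zero_consIso (n : ℕ) (X : C) :
    biproduct.ι (fun _ : Fin (n + 1) => X) 0 ≫ (consIso n X).hom = biprod.inl := by
  rw [← Iso.eq_comp_inv]
  unfold consIso
  rw [biprod.inl_desc]

theorem ι_succ_consIso (n : ℕ) (X : C) (j : Fin n) :
    biproduct.ι (fun _ : Fin (n + 1) => X) j.succ ≫ (consIso n X).hom =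
      biproduct.ι (fun _ : Fin n => X) j ≫ biprod.inr := by
  rw [← Iso.eq_comp_inv]
  unfold consIso
  rw [Category.assoc, biprod.inr_desc, biproduct.ι_desc]

/-- a scalar matrix as a morphism between sums of copies of `X` -/
noncomputable def TV {m n : ℕ} (X : C) (M : Fin m → Fin n → ℂ) : pw m X ⟶ pw n X :=
  mk (fun i j => M i j • 𝟙 X)

theorem cc_TV {m n : ℕ} (X : C) (M : Fin m → Fin n → ℂ) (i : Fin m) (j : Fin n) :
    cc (TV X M) i j = M i j • 𝟙 X := cc_mk _ _ _

theorem TV_mul {m n k : ℕ} (X : C) (M : Fin m → Fin n → ℂ) (N : Fin n → Fin k → ℂ) :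
    TV X M ≫ TV X N = TV X (fun i j => ∑ l, M i l * N l j) := by
  apply cc_ext
  intro i j
  rw [cc_comp, cc_TV, Finset.sum_smul]
  refine Finset.sum_congr rfl fun l _ => ?_
  rw [cc_TV, cc_TV, Linear.smul_comp, Category.id_comp, smul_smul]

/-- an invertible scalar matrix is an isomorphism -/
noncomputable def TViso {n : ℕ} (X : C) (M N : Fin n → Fin n → ℂ)
    (h1 : ∀ i j, ∑ l, M i l * N l j = if i = j then 1 else 0)
    (h2 : ∀ i j, ∑ l, N i l * M l j = if i = j then 1 else 0) :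
    pw n X ≅ pw n X where
  hom := TV X M
  inv := TV X N
  hom_inv_id := by
    rw [TV_mul]
    apply cc_ext
    intro i j
    rw [cc_TV, cc_id, h1]
    split_ifs with h2
    · rw [one_smul]
    · rw [zero_smul]
  inv_hom_id := by
    rw [TV_mul]
    apply cc_ext
    intro i j
    rw [cc_TV, cc_id, h2]
    split_ifs with h2
    · rw [one_smul]
    · rw [zero_smul]

variable {G₀ G₁ : C} (α β : G₀ ⟶ G₁)

/-- the diagonal morphism -/
noncomputable def DD {n : ℕ} (l : Fin n → ℂ) : pw n G₀ ⟶ pw n G₁ :=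
  mk (fun i j => if i = j then α - l j • β else 0)

/-- the morphism `x(t) ↦ (α - t β) x(t)` on polynomials of degree less than `n` -/
noncomputable def AA (n : ℕ) : pw n G₀ ⟶ pw (n + 1) G₁ :=
  mk (fun (i : Fin n) (j : Fin (n + 1)) =>
    (if j = i.castSucc then α else 0) - (if j = i.succ then β else 0))

/-- evaluation -/
def ev (m : ℕ) {n : ℕ} (l : Fin n → ℂ) : Fin m → Fin n → ℂ := fun i j => l j ^ (i : ℕ)

theorem TV_DD {n : ℕ} (l : Fin n → ℂ) :
    TV G₀ (ev n l) ≫ DD α β l = AA α β n ≫ TV G₁ (ev (n + 1) l) := by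
  apply cc_ext
  intro i j
  rw [cc_comp, cc_comp]
  unfold DD AA
  simp only [cc_TV, cc_mk, Preadditive.sub_comp, Linear.smul_comp, smul_sub,
    Category.id_comp, Linear.comp_smul, Category.comp_id, ite_comp, zero_comp, smul_ite, smul_zero,
    Finset.sum_sub_distrib, Finset.sum_ite_eq, Finset.sum_ite_eq', Finset.mem_univ, if_true, ev,
    Fin.val_castSucc, Fin.val_succ]
  rw [smul_smul, pow_succ]

/-- the Vandermonde matrices are invertible -/
theorem exists_inv {n : ℕ} (l : Fin n → ℂ) (hl : Function.Injective l) :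
    ∃ N : Fin n → Fin n → ℂ, (∀ i j, ∑ k, ev n l i k * N k j = if i = j then 1 else 0) ∧
      ∀ i j, ∑ k, N i k * ev n l k j = if i = j then 1 else 0 := by
  have h0 : (Matrix.vandermonde l).transpose.det ≠ 0 := by
    rw [Matrix.det_transpose]
    exact Matrix.det_vandermonde_ne_zero_iff.2 hl
  have h : IsUnit (Matrix.vandermonde l).transpose.det := isUnit_iff_ne_zero.2 h0
  refine ⟨(((Matrix.vandermonde l).transpose)⁻¹ : Matrix (Fin n) (Fin n) ℂ), fun i j => ?_,
    fun i j => ?_⟩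
  · have h1 := congrFun (congrFun (Matrix.mul_nonsing_inv _ h) i) j
    rw [Matrix.mul_apply, Matrix.one_apply] at h1
    exact h1
  · have h1 := congrFun (congrFun (Matrix.nonsing_inv_mul _ h) i) j
    rw [Matrix.mul_apply, Matrix.one_apply] at h1
    exact h1

theorem cc_ι {m n : ℕ} {X Y : C} (f : pw m X ⟶ pw n Y) (i : Fin m) (j : Fin n) :
    biproduct.ι (fun _ : Fin m => X) i ≫ f ≫ biproduct.π (fun _ : Fin n => Y) j = cc f i j := rfl

theorem DD_cons {n : ℕ} (l : Fin (n + 1) → ℂ) :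
    DD α β l ≫ (consIso n G₁).hom =
      (consIso n G₀).hom ≫ biprod.map (α - l 0 • β) (DD α β (fun j => l j.succ)) := by
  apply biproduct.hom_ext'
  intro i
  apply biprod.hom_ext
  · rw [Category.assoc, Category.assoc, Category.assoc, Category.assoc, consIso_fst, biprod.map_fst,
      cc_ι, DD, cc_mk]
    refine Fin.cases ?_ (fun i => ?_) i
    · have := ι_zero_consIso n G₀
      rw [reassoc_of% this, biprod.inl_fst_assoc, if_pos rfl]
    · have := ι_succ_consIso n G₀ i
      rw [reassoc_of% this, biprod.inr_fst_assoc, zero_comp, comp_zero,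
        if_neg (Fin.succ_ne_zero i)]
  · apply biproduct.hom_ext
    intro j
    simp only [Category.assoc]
    rw [consIso_snd, biprod.map_snd_assoc, cc_ι, DD, cc_mk]
    refine Fin.cases ?_ (fun i => ?_) i
    · have := ι_zero_consIso n G₀
      rw [reassoc_of% this, biprod.inl_snd_assoc, zero_comp, if_neg (Fin.succ_ne_zero j).symm]
    · have := ι_succ_consIso n G₀ i
      rw [reassoc_of% this, biprod.inr_snd_assoc, cc_ι, DD, cc_mk]
      by_cases h : i = j
      · subst h; rw [if_pos rfl, if_pos rfl]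
      · rw [if_neg h, if_neg (fun h' => h (Fin.succ_injective _ h'))]

/-- the shear -/
noncomputable def shear {X Y : C} (γ : X ⟶ Y) : X ⊞ Y ≅ X ⊞ Y where
  hom := biprod.lift biprod.fst (biprod.snd + biprod.fst ≫ γ)
  inv := biprod.lift biprod.fst (biprod.snd - biprod.fst ≫ γ)
  hom_inv_id := by
    apply biprod.hom_ext
    · simp
    · simp [Preadditive.comp_sub]
  inv_hom_id := by
    apply biprod.hom_ext
    · simp
    · simp [Preadditive.comp_add]

theorem AA_cons (n : ℕ) :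
    AA α β (n + 1) ≫ (consIso (n + 1) G₁).hom =
      (consIso n G₀).hom ≫ biprod.map (𝟙 _) (AA α β n) ≫
        (shear (-(β ≫ biproduct.ι (fun _ : Fin (n + 1) => G₁) 0))).hom ≫
          biprod.map α (𝟙 _) := by
  apply biproduct.hom_ext'
  intro i
  apply biprod.hom_ext
  · simp only [Category.assoc]
    rw [consIso_fst, biprod.map_fst, cc_ι, AA, cc_mk]
    unfold shear
    rw [biprod.lift_fst_assoc, biprod.map_fst_assoc, Category.id_comp]
    refine Fin.cases ?_ (fun i => ?_) i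
    · have := ι_zero_consIso n G₀
      rw [reassoc_of% this, biprod.inl_fst_assoc, if_pos (by rfl),
        if_neg (Fin.succ_ne_zero _).symm, sub_zero]
    · have := ι_succ_consIso n G₀ i
      rw [reassoc_of% this, biprod.inr_fst_assoc, zero_comp, comp_zero,
        if_neg (Fin.succ_ne_zero _).symm, if_neg (by
          intro h; simp [Fin.ext_iff] at h), sub_zero]
  · apply biproduct.hom_ext
    intro j
    simp only [Category.assoc]
    rw [consIso_snd, biprod.map_snd_assoc, Category.id_comp, cc_ι, AA, cc_mk]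
    unfold shear
    rw [biprod.lift_snd_assoc, Preadditive.add_comp, Preadditive.comp_add, Preadditive.comp_add,
      Preadditive.comp_add, Category.assoc, biprod.map_snd_assoc, biprod.map_fst_assoc,
      Category.id_comp]
    refine Fin.cases ?_ (fun i => ?_) i
    · have := ι_zero_consIso n G₀
      rw [reassoc_of% this, reassoc_of% this, biprod.inl_snd_assoc, zero_comp, zero_add,
        biprod.inl_fst_assoc, Preadditive.neg_comp, Category.assoc]
      rw [if_neg (by intro h; rw [Fin.castSucc_zero] at h; exact Fin.succ_ne_zero _ h), zero_sub]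
      by_cases h : j = 0
      · subst h
        rw [if_pos (by rfl), biproduct.ι_π_self, Category.comp_id]
      · rw [if_neg (by
          intro h'; apply h; simp only [Fin.ext_iff, Fin.val_succ, Fin.val_zero] at h' ⊢; omega),
          biproduct.ι_π_ne _ (Ne.symm h), comp_zero]
    · have := ι_succ_consIso n G₀ i
      rw [reassoc_of% this, reassoc_of% this, biprod.inr_snd_assoc, biprod.inr_fst_assoc, zero_comp,
        comp_zero, add_zero, cc_ι, AA, cc_mk]
      congr 1
      · by_cases h : j = i.castSucc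
        · subst h; rw [if_pos rfl, if_pos (by simp [Fin.ext_iff])]
        · rw [if_neg h, if_neg (by
            intro h'; apply h; simp only [Fin.ext_iff, Fin.val_succ, Fin.val_castSucc] at h' ⊢; omega)]
      · by_cases h : j = i.succ
        · subst h; rw [if_pos rfl, if_pos rfl]
        · rw [if_neg h, if_neg (fun h' => h (Fin.succ_injective _ h'))]

end matrices

section bounds

variable {C : Type u} [Category.{v} C] [Preadditive C] [Linear ℂ C] [HasZeroObject C]
  [HasShift C ℤ] [∀ n : ℤ, (shiftFunctor C n).Additive] [Pretriangulated C] [IsTriangulated C]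
  (σ : PreStab C) (s : ℝ) {G₀ G₁ : C} (α β : G₀ ⟶ G₁)

theorem isZero_pw_zero (X : C) : IsZero (pw 0 X) := by
  rw [IsZero.iff_id_eq_zero]
  apply biproduct.hom_ext'
  intro i
  exact i.elim0

/-- `pw 1 X` is `X` -/
noncomputable def pwOne (X : C) : pw 1 X ≅ X where
  hom := biproduct.π (fun _ : Fin 1 => X) 0
  inv := biproduct.ι (fun _ : Fin 1 => X) 0
  hom_inv_id := by
    have h := biproduct.total (f := fun _ : Fin 1 => X)
    rw [Fin.sum_univ_one] at h
    exact h
  inv_hom_id := by rw [biproduct.ι_π_self]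

theorem Hc_comp_iso {X Y Z : C} (f : X ⟶ Y) (e : Y ≅ Z) : Hc σ s (f ≫ e.hom) = Hc σ s f :=
  (Hc_iso σ s f (f ≫ e.hom) (Iso.refl X) e (by simp)).symm

theorem Hc_iso_comp {X Y Z : C} (e : X ≅ Y) (f : Y ⟶ Z) : Hc σ s (e.hom ≫ f) = Hc σ s f :=
  Hc_iso σ s (e.hom ≫ f) f e (Iso.refl Z) (by simp)

theorem Hc_DD : ∀ {n : ℕ} (l : Fin n → ℂ), Hc σ s (DD α β l) = ∑ j, Hc σ s (α - l j • β)
  | 0, l => by
    rw [Hc_of_isZero σ s _ (isZero_pw_zero G₀), Finset.univ_eq_empty, Finset.sum_empty]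
    unfold PreStab.H
    rw [σ.F_zero s (isZero_pw_zero G₁), σ.F_zero _ (isZero_pw_zero G₁), add_zero]
  | n + 1, l => by
    rw [Hc_iso σ s _ _ (consIso n G₀) (consIso n G₁) (DD_cons α β l), Hc_biprod_map, Hc_DD,
      Fin.sum_univ_succ]

theorem Hc_AA : ∀ n : ℕ, Hc σ s (AA α β n) ≤ σ.H s G₁ + n * Hc σ s α
  | 0 => by
    rw [Hc_of_isZero σ s _ (isZero_pw_zero G₀)]
    rw [σ.H_iso s (pwOne G₁)]
    simp
  | n + 1 => by
    rw [Hc_iso σ s _ (biprod.map (𝟙 _) (AA α β n) ≫
        (shear (-(β ≫ biproduct.ι (fun _ : Fin (n + 1) => G₁) 0))).hom ≫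
          biprod.map α (𝟙 _)) (consIso n G₀) (consIso (n + 1) G₁) (AA_cons α β n)]
    refine (Hc_comp σ s _ _).trans ?_
    rw [Hc_iso_comp, Hc_biprod_map, Hc_biprod_map, Hc_isIso σ s (𝟙 _), Hc_isIso σ s (𝟙 _)]
    have := Hc_AA n
    push_cast
    linarith

theorem Hc_snd (X Y : C) : Hc σ s (biprod.snd : X ⊞ Y ⟶ Y) = σ.H s (X⟦(1 : ℤ)⟧) :=
  Hc_eq σ s (rot_of_distTriang _ (binaryBiproductTriangle_distinguished X Y))

theorem Hc_ev {n : ℕ} (X : C) (l : Fin n → ℂ) (hl : Function.Injective l) :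
    Hc σ s (TV X (ev (n + 1) l)) = σ.H s (X⟦(1 : ℤ)⟧) := by
  obtain ⟨a, ha⟩ : ∃ a : ℂ, a ∉ Set.range l := (Set.finite_range l).exists_notMem
  have hl' : Function.Injective (Fin.cons a l : Fin (n + 1) → ℂ) :=
    Fin.cons_injective_iff.2 ⟨ha, hl⟩
  obtain ⟨N, h1, h2⟩ := exists_inv _ hl'
  let e := TViso X (ev (n + 1) (Fin.cons a l : Fin (n + 1) → ℂ)) N h1 h2
  have h3 : TV X (ev (n + 1) l) = e.hom ≫ (consIso n X).hom ≫ biprod.snd := by
    apply cc_ext
    intro i j
    rw [cc_TV]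
    unfold cc
    rw [Category.assoc, Category.assoc, consIso_snd, cc_ι]
    show _ = cc (TV X (ev (n + 1) (Fin.cons a l : Fin (n + 1) → ℂ))) i j.succ
    rw [cc_TV]
    rfl
  rw [h3, Hc_iso_comp, Hc_iso_comp, Hc_snd]

theorem key {n : ℕ} (l : Fin n → ℂ) (hl : Function.Injective l) :
    ∑ j, Hc σ s (α - l j • β) ≤ σ.H s G₁ + n * Hc σ s α + σ.H s (G₁⟦(1 : ℤ)⟧) := by
  obtain ⟨N, h1, h2⟩ := exists_inv _ hl
  have h3 := Hc_iso_comp σ s (TViso G₀ (ev n l) N h1 h2) (DD α β l)
  have h4 : (TViso G₀ (ev n l) N h1 h2).hom ≫ DD α β l = AA α β n ≫ TV G₁ (ev (n + 1) l) :=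
    TV_DD α β l
  rw [← Hc_DD, ← h3, h4]
  refine (Hc_comp σ s _ _).trans ?_
  rw [Hc_ev σ s G₁ l hl]
  linarith [Hc_AA σ s α β n]

end bounds

end Pen

open Pen in
theorem p_PEN : S_PEN.{v, u} := by
  intro C _ _ _ _ _ _ _ _ σ φ G₀ G₁ α β K hK l₀ h0
  -- the value of `H s` on `K l`
  have hH : ∀ (s : ℝ) (l : ℂ), Hc σ s (α - l • β) = σ.H s (K l) := by
    intro s l
    obtain ⟨g, h, hT⟩ := hK l
    exact Hc_eq σ s hT
  have hsub : {l | ¬ σ.P φ (K l)} ⊆ ⋃ (s : ℚ), ⋃ (k : ℕ),
      {l | (φ ≤ s ∨ (s : ℝ) ≤ φ - 1) ∧ 1 / ((k : ℝ) + 1) ≤ σ.H s (K l)} := by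
    intro l hl
    rw [Set.mem_setOf_eq, P_iff_H] at hl
    push Not at hl
    obtain ⟨s, hs, hne⟩ := hl
    have hpos : 0 < σ.H s (K l) := lt_of_le_of_ne (σ.H_nonneg _ _) (Ne.symm hne)
    obtain ⟨k, hk⟩ := exists_nat_one_div_lt hpos
    exact Set.mem_iUnion.2 ⟨s, Set.mem_iUnion.2 ⟨k, hs, hk.le⟩⟩
  refine Set.Countable.mono hsub (Set.countable_iUnion fun s => Set.countable_iUnion fun k => ?_)
  by_cases hs : φ ≤ s ∨ (s : ℝ) ≤ φ - 1
  swap
  · refine Set.Countable.mono (s₂ := ∅) ?_ Set.countable_empty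
    rintro l ⟨h, _⟩
    exact absurd h hs
  apply Set.Finite.countable
  by_contra hinf
  have hinf' : Set.Infinite {l | (φ ≤ s ∨ (s : ℝ) ≤ φ - 1) ∧ 1 / ((k : ℝ) + 1) ≤ σ.H s (K l)} :=
    hinf
  obtain ⟨n, hn⟩ := exists_nat_gt ((σ.H s G₁ + σ.H s (G₁⟦(1 : ℤ)⟧)) * ((k : ℝ) + 1))
  obtain ⟨t, ht, hcard⟩ := hinf'.exists_subset_card_eq n
  let e : Fin n ≃ t := (t.equivFinOfCardEq hcard).symm
  let l : Fin n → ℂ := fun i => (e i : ℂ) - l₀
  have hl : Function.Injective l := by
    intro i j h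
    have h' : (e i : ℂ) = e j := by
      have : (e i : ℂ) - l₀ = e j - l₀ := h
      exact sub_left_injective this
    exact e.injective (Subtype.ext h')
  have hkey := key σ (s : ℝ) (α - l₀ • β) β l hl
  have hz : Hc σ (s : ℝ) (α - l₀ • β) = 0 := by
    rw [hH]
    exact H_ss_zero σ h0 hs
  rw [hz, mul_zero, add_zero] at hkey
  have hlow : (n : ℝ) * (1 / ((k : ℝ) + 1)) ≤ ∑ j, Hc σ (s : ℝ) (α - l₀ • β - l j • β) := by
    have : ∀ j ∈ (Finset.univ : Finset (Fin n)), 1 / ((k : ℝ) + 1) ≤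
        Hc σ (s : ℝ) (α - l₀ • β - l j • β) := by
      intro j _
      have h1 : α - l₀ • β - l j • β = α - (e j : ℂ) • β := by
        rw [sub_sub, ← add_smul]
        congr 2
        show l₀ + ((e j : ℂ) - l₀) = e j
        ring
      rw [h1, hH]
      exact (ht (e j).2).2
    have h2 := Finset.card_nsmul_le_sum _ _ _ this
    rw [Finset.card_univ, Fintype.card_fin, nsmul_eq_mul] at h2
    exact h2
  have hk : (0 : ℝ) < (k : ℝ) + 1 := by positivity
  have h5 : (n : ℝ) * (1 / ((k : ℝ) + 1)) ≤ σ.H s G₁ + σ.H s (G₁⟦(1 : ℤ)⟧) := hlow.trans hkey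
  rw [mul_one_div, div_le_iff₀ hk] at h5
  linarith

end Run7.h354.BE
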