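import Pool.Agent.Run7.h354.BE.Stm

/-!
# Pieces `GAP` and `SUM` of the project on stability conditions on bielliptic surfaces
-/

set_option autoImplicit false
set_option linter.unusedSectionVars false
set_option linter.unusedVariables false

open CategoryTheory CategoryTheory.Limits Pretriangulated Triangulated Complex ZeroObject
open Pool.Agent.Helper445_GMF

namespace Run7.h354.BE

universe v u

theorem p_GAP : S_GAP.{v, u} := by
  intro C _ _ _ _ _ _ _ _ σ hS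
  obtain ⟨n, v, l, K, hadd, hZ, hb⟩ := hS
  refine ⟨1 / max K 1, by positivity, fun φ X hX h0 => ?_⟩
  obtain ⟨m, hm, e⟩ := σ.phase φ X hX h0
  have hne : σ.Z X ≠ 0 := by
    rw [e]
    exact mul_ne_zero (by exact_mod_cast hm.ne') (Complex.exp_ne_zero _)
  have hv : ∃ i, v X i ≠ 0 := by
    by_contra hc
    push Not at hc
    apply hne
    rw [hZ]
    have : (fun i => (v X i : ℝ)) = 0 := by
      funext i; simp [hc i]
    rw [this, map_zero]
  obtain ⟨i, hi⟩ := hv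
  have h1 : (1 : ℝ) ≤ |(v X i : ℝ)| := by
    have := Int.one_le_abs hi
    exact_mod_cast this
  have h2 := hb φ X hX i
  have h3 : K * ‖σ.Z X‖ ≤ max K 1 * ‖σ.Z X‖ :=
    mul_le_mul_of_nonneg_right (le_max_left _ _) (norm_nonneg _)
  rw [div_le_iff₀ (by positivity)]
  linarith [mul_comm (max K 1) ‖σ.Z X‖]

section

variable {C : Type u} [Category.{v} C] [Preadditive C] [HasZeroObject C]
  [HasShift C ℤ] [∀ n : ℤ, (shiftFunctor C n).Additive] [Pretriangulated C] [IsTriangulated C]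
  (σ : PreStab C)

/-- `H s` vanishes on the semistable objects of phase `φ` for `s` outside the open interval. -/
theorem H_ss_zero {φ : ℝ} {X : C} (hX : σ.P φ X) {s : ℝ} (hs : φ ≤ s ∨ s ≤ φ - 1) :
    σ.H s X = 0 := by
  rcases hs with hs | hs
  · rw [PreStab.H, σ.F_ge s hX hs, σ.F_ge (s + 1) hX (by linarith), add_zero]
  · rcases lt_or_eq_of_le hs with hs | hs
    · exact σ.H_supp (a := φ) (b := φ) (.ss (Set.left_mem_Icc.2 le_rfl) hX) (Or.inl (by linarith))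
    · rw [PreStab.H, σ.F_lt s hX (by linarith), σ.F_ge (s + 1) hX (by linarith), add_zero]
      by_cases h0 : IsZero X
      · rw [σ.Z_zero h0, PreStab.im_zero]
      · obtain ⟨m, hm, e⟩ := σ.phase φ X hX h0
        rw [e, PreStab.im_exp, hs]
        have : Real.pi * (φ - (φ - 1)) = Real.pi := by ring
        rw [this, Real.sin_pi, mul_zero]

/-- `H s` is positive on the nonzero semistable objects of phase `φ`, `φ - 1 < s < φ`. -/
theorem H_ss_pos {φ : ℝ} {X : C} (hX : σ.P φ X) (h0 : ¬ IsZero X) {s : ℝ} (h1 : φ - 1 < s)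
    (h2 : s < φ) : 0 < σ.H s X := by
  rw [PreStab.H, σ.F_lt s hX h2, σ.F_ge (s + 1) hX (by linarith), add_zero]
  obtain ⟨m, hm, e⟩ := σ.phase φ X hX h0
  rw [e, PreStab.im_exp]
  refine mul_pos hm (Real.sin_pos_of_pos_of_lt_pi ?_ ?_)
  · exact mul_pos Real.pi_pos (by linarith)
  · have : φ - s < 1 := by linarith
    nlinarith [Real.pi_pos]

theorem P_of_H_one {φ ψ : ℝ} {X : C} (hX : σ.P ψ X)
    (h : ∀ s : ℚ, (φ ≤ s ∨ (s : ℝ) ≤ φ - 1) → σ.H s X = 0) : IsZero X ∨ ψ = φ := by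
  by_contra hc
  push Not at hc
  obtain ⟨h0, hne⟩ := hc
  rcases lt_or_gt_of_ne hne with hlt | hgt
  · obtain ⟨s, hs1, hs2⟩ := exists_rat_btwn (show ψ - 1 < min ψ (φ - 1) from
      lt_min (by linarith) (by linarith))
    have h1 := H_ss_pos σ hX h0 (s := (s : ℝ)) hs1 (lt_of_lt_of_le hs2 (min_le_left _ _))
    rw [h s (Or.inr (lt_of_lt_of_le hs2 (min_le_right _ _)).le)] at h1
    exact lt_irrefl _ h1
  · obtain ⟨s, hs1, hs2⟩ := exists_rat_btwn (show max φ (ψ - 1) < ψ from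
      max_lt hgt (by linarith))
    have h1 := H_ss_pos σ hX h0 (s := (s : ℝ)) (lt_of_le_of_lt (le_max_right _ _) hs1) hs2
    rw [h s (Or.inl (lt_of_le_of_lt (le_max_left _ _) hs1).le)] at h1
    exact lt_irrefl _ h1

theorem P_of_H {φ a b : ℝ} {X : C} (hX : HN σ.P a b X)
    (h : ∀ s : ℚ, (φ ≤ s ∨ (s : ℝ) ≤ φ - 1) → σ.H s X = 0) : σ.P φ X := by
  induction hX with
  | @one ψ X hX =>
    rcases P_of_H_one σ hX h with h0 | rfl
    · exact σ.zero _ _ h0
    · exact hX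
  | @step ψ a b T hT h₁ h₃ hψ ih =>
    have hg : Gen σ.P (Set.Icc a b) T.obj₁ := σ.HN_gen h₁
    have hg' : Gen σ.P (Set.Ici ψ) T.obj₁ := hg.mono fun x hx => hψ.le.trans hx.1
    have hadd : ∀ s : ℝ, σ.H s T.obj₂ = σ.H s T.obj₁ + σ.H s T.obj₃ := by
      intro s
      unfold PreStab.H
      rw [σ.F_hn T hT hg' h₃, σ.F_hn T hT hg' h₃]
      ring
    have h1 : ∀ s : ℚ, (φ ≤ s ∨ (s : ℝ) ≤ φ - 1) → σ.H s T.obj₁ = 0 := by
      intro s hs
      have := h s hs
      rw [hadd] at this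
      linarith [σ.H_nonneg (s : ℝ) T.obj₁, σ.H_nonneg (s : ℝ) T.obj₃]
    have h3 : ∀ s : ℚ, (φ ≤ s ∨ (s : ℝ) ≤ φ - 1) → σ.H s T.obj₃ = 0 := by
      intro s hs
      have := h s hs
      rw [hadd] at this
      linarith [σ.H_nonneg (s : ℝ) T.obj₁, σ.H_nonneg (s : ℝ) T.obj₃]
    have hP1 := ih h1
    rcases P_of_H_one σ h₃ h3 with h0 | rfl
    · have hi : IsIso T.mor₁ := (Triangle.distinguished_iff_of_isZero₃ T h0).1 hT
      exact σ.iso (asIso T.mor₁) hP1
    · have hz : IsZero T.obj₁ := by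
        refine Gen.isZero σ (S := Set.Icc a b) (S' := {ψ}) ?_ hg (.ss rfl hP1)
        rintro s hs s' rfl
        exact lt_of_lt_of_le hψ hs.1
      have hi : IsIso T.mor₂ := (Triangle.isZero₁_iff_isIso₂ T hT).1 hz
      exact σ.iso (asIso T.mor₂).symm h₃

theorem P_iff_H (φ : ℝ) (X : C) :
    σ.P φ X ↔ ∀ s : ℚ, (φ ≤ s ∨ (s : ℝ) ≤ φ - 1) → σ.H s X = 0 := by
  constructor
  · intro hX s hs
    exact H_ss_zero σ hX hs
  · intro h
    obtain ⟨a, b, hX⟩ := σ.hn X
    exact P_of_H σ hX h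

end

theorem p_SUM : S_SUM.{v, u} := by
  intro C _ _ _ _ _ _ _ _ σ φ
  refine ⟨fun X => P_iff_H σ φ X, fun X Y h => ?_, fun T hT h1 h3 => ?_⟩
  · rw [P_iff_H] at h ⊢
    intro s hs
    have h2 := σ.H_split _ (binaryBiproductTriangle_distinguished X Y) rfl (s : ℝ)
    have h3 : σ.H s (X ⊞ Y) = σ.H s X + σ.H s Y := h2
    rw [h s hs] at h3
    linarith [σ.H_nonneg (s : ℝ) X, σ.H_nonneg (s : ℝ) Y]
  · rw [P_iff_H] at h1 h3 ⊢
    intro s hs
    have h2 := σ.H_sub T hT (s : ℝ)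
    rw [h1 s hs, h3 s hs, add_zero] at h2
    exact le_antisymm h2 (σ.H_nonneg _ _)

end Run7.h354.BE
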